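import Mathlib
import Pool.Agent.H25.KappaF

set_option autoImplicit false

namespace Pool.Agent.Results.MP_3edc48_gt.NonM

open Set Filter Topology

/-- Whenever `A` is open and `x` lies in the closure of `A` but not in `A`, some countably
infinite subset of `A` converges to `x`. -/
def KappaFrechet (Y : Type) [TopologicalSpace Y] : Prop :=
  ∀ (x : Y) (A : Set Y), IsOpen A → x ∈ closure A \ A →
    ∃ B ⊆ A, Cardinal.mk B = Cardinal.aleph0 ∧ x ∉ B ∧ ∀ U ∈ 𝓝 x, (B \ U).Finite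

/-- Continuous real functions on `X`, as a subspace of the product `X → ℝ`. -/
abbrev Cp (X : Set ℝ) : Type := {f : X → ℝ // Continuous f}

/-- The least size of a non-meager set of reals. -/
noncomputable def nonM : Cardinal :=
  sInf {c | ∃ S : Set ℝ, ¬ IsMeagre S ∧ Cardinal.mk S = c}

theorem count {S : Set ℝ} (h : S.Countable) : IsMeagre S := by
  rw [← biUnion_of_singleton S]
  exact isMeagre_biUnion h fun x _ => IsNowhereDense.isMeagre
    (isClosed_singleton.isNowhereDense_iff.2 (interior_singleton x))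

theorem nonM_mem : ∃ S : Set ℝ, ¬ IsMeagre S ∧ Cardinal.mk S = nonM :=
  csInf_mem (s := {c | ∃ S : Set ℝ, ¬ IsMeagre S ∧ Cardinal.mk S = c})
    ⟨_, univ, not_isMeagre_of_isOpen isOpen_univ univ_nonempty, rfl⟩

theorem nonM_ge : Cardinal.aleph0 ≤ nonM := by
  obtain ⟨S, h1, h2⟩ := nonM_mem
  rw [← h2]
  exact (not_le.1 fun h => h1 (count (Cardinal.le_aleph0_iff_set_countable.1 h))).le

theorem lower (X : Set ℝ) (hX : Cardinal.mk X < nonM) : KappaFrechet (Cp X) := by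
  classical
  rintro f U hU ⟨hf, hfU⟩
  have h1 : ∀ (n : ℕ) (S : Finset X), ∃ (g : Cp X) (S' : Finset X), S ⊆ S' ∧
      (∀ x ∈ S, |g.1 x - f.1 x| < 1 / ((n : ℝ) + 1)) ∧ ∀ h : Cp X, (∀ x ∈ S', h.1 x = g.1 x) →
        h ∈ U := by
    intro n S
    obtain ⟨g, g1, g2⟩ := mem_closure_iff_nhds.1 hf
      {g | ∀ x ∈ S, |g.1 x - f.1 x| < 1 / ((n : ℝ) + 1)} (by
        refine (eventually_all_finset S).2 fun x _ => ?_
        have : Continuous fun g : Cp X => |g.1 x - f.1 x| :=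
          (((continuous_apply x).comp continuous_subtype_val).sub continuous_const).abs
        exact (isOpen_lt this continuous_const).mem_nhds (by
          simpa using Nat.cast_add_one_pos n))
    obtain ⟨U', u1, rfl⟩ := isOpen_induced_iff.1 hU
    obtain ⟨I, u, u2, u3⟩ := isOpen_pi_iff.1 u1 g.1 g2
    exact ⟨g, S ∪ I, Finset.subset_union_left, g1, fun h hh => u3 fun x hx =>
      (hh x (Finset.mem_union_right _ hx)).symm ▸ (u2 x hx).2⟩
  choose g S' g1 g2 g3 using h1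
  let F : ℕ → Finset X := fun n => Nat.rec ∅ (fun n S => S' n S) n
  have hF : Monotone F := monotone_nat_of_le_succ fun n => g1 n (F n)
  obtain ⟨A, V, A1, A2, A3⟩ := Pool.Agent.H25.KappaF.kappa (X := X) (fun y => by
      by_contra h
      refine absurd (csInf_le' (show _ ∈ {c | ∃ S : Set ℝ, ¬ IsMeagre S ∧ Cardinal.mk S = c} from
        ⟨_, h, rfl⟩)) (not_le.2 (Cardinal.mk_range_le.trans_lt ?_))
      simpa [nonM] using Cardinal.mul_lt_of_lt nonM_ge hX hX)
    (fun n => ↑(F (n + 1) \ F n)) (fun n => Finset.finite_toSet _) (by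
      have k : ∀ m n, m < n → Disjoint (↑(F (m + 1) \ F m) : Set X) ↑(F (n + 1) \ F n) :=
        fun m n h => disjoint_left.2 fun x h1 h2 => (Finset.mem_sdiff.1 h2).2
          (hF h (Finset.mem_sdiff.1 h1).1)
      exact fun m n h => (lt_or_gt_of_ne h).elim (k m n) fun h => (k n m h).symm)
  have h2 : ∀ n, ∃ h : Cp X, n ∈ A → h ∈ U ∧ ∀ x ∉ V n, |h.1 x - f.1 x| ≤ 1 / ((n : ℝ) + 1) := by
    intro n
    by_cases hn : n ∈ A
    swap
    · exact ⟨f, fun h => absurd h hn⟩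
    obtain ⟨φ, p0, p1, -⟩ := exists_continuous_zero_one_of_isClosed (A2 n hn).1.isClosed_compl
      (F (n + 1) \ F n).finite_toSet.isClosed (disjoint_compl_left_iff_subset.2 (A2 n hn).2)
    let c : X → ℝ := fun x => max (-(1 / ((n : ℝ) + 1))) (min (1 / ((n : ℝ) + 1))
      ((g n (F n)).1 x - f.1 x))
    have hc : Continuous c := continuous_const.max (continuous_const.min ((g n (F n)).2.sub f.2))
    have h0 : (0 : ℝ) < 1 / ((n : ℝ) + 1) := Nat.one_div_pos_of_nat
    refine ⟨⟨fun x => f.1 x + c x + φ x * ((g n (F n)).1 x - f.1 x - c x),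
      (f.2.add hc).add (φ.continuous.mul (((g n (F n)).2.sub f.2).sub hc))⟩, fun _ =>
        ⟨g3 n (F n) _ fun x hx => ?_, fun x hx => ?_⟩⟩
    · rcases em (x ∈ F n) with hx' | hx'
      · have := abs_lt.1 (g2 n (F n) x hx')
        have : c x = (g n (F n)).1 x - f.1 x := by
          simp only [c]
          rw [min_eq_right this.2.le, max_eq_right this.1.le]
        simp only [this]
        ring
      · have : φ x = 1 := p1 (Finset.mem_coe.2 (Finset.mem_sdiff.2 ⟨hx, hx'⟩))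
        simp only [this]
        ring
    · have : φ x = 0 := p0 hx
      simp only [this, zero_mul, add_zero, add_sub_cancel_left]
      exact abs_le.2 ⟨le_max_left _ _, max_le (by linarith) (min_le_left _ _)⟩
  choose h hh using h2
  have h3 : Tendsto h (cofinite ⊓ 𝓟 A) (𝓝 f) := by
    refine tendsto_subtype_rng.2 (tendsto_pi_nhds.2 fun x => tendsto_iff_norm_sub_tendsto_zero.2
      (squeeze_zero' (Eventually.of_forall fun _ => norm_nonneg _) ?_
        ((Nat.cofinite_eq_atTop ▸ tendsto_one_div_add_atTop_nhds_zero_nat).mono_left inf_le_left)))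
    refine eventually_inf_principal.2 ((A3 x).subset fun n hn => ?_)
    by_contra h'
    exact hn fun hA => (hh n hA).2 x fun hV => h' ⟨hA, hV⟩
  have h4 : ∀ W ∈ 𝓝 f, {n ∈ A | h n ∉ W}.Finite := fun W hW =>
    Finite.subset (eventually_inf_principal.1 (h3 hW)) fun n hn h' => hn.2 (h' hn.1)
  have h5 : h '' A ⊆ U := by
    rintro _ ⟨n, hn, rfl⟩
    exact (hh n hn).1
  refine ⟨h '' A, h5, ?_, fun h' => hfU (h5 h'), fun W hW => ((h4 W hW).image h).subset ?_⟩
  · have : Infinite (h '' A) := infinite_coe_iff.2 fun hfin => A1 <|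
      (h4 _ (hfin.isClosed.isOpen_compl.mem_nhds fun h' => hfU (h5 h'))).subset fun n hn =>
        ⟨hn, fun h' => h' ⟨n, hn, rfl⟩⟩
    have := ((to_countable A).image h).to_subtype
    exact Cardinal.mk_eq_aleph0 _
  · rintro _ ⟨⟨n, hn, rfl⟩, h'⟩
    exact ⟨n, ⟨hn, h'⟩, rfl⟩

theorem upper (X : Set ℝ) (hX : ¬ IsMeagre X) (hq : ∀ (q : ℚ) (n : ℕ), q + √2 / (n + 1) ∈ X) :
    ¬ KappaFrechet (Cp X) := by
  classical
  intro hk
  obtain ⟨q, hs⟩ := exists_surjective_nat ℚ
  let p : ℕ → ℕ → X := fun i n => ⟨_, hq (q i) n⟩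
  have hp : ∀ i n j m, p i n = p j m → n = m := by
    intro i n j m h
    have h1 : (q i : ℝ) + √2 / (n + 1) = q j + √2 / (m + 1) := congrArg Subtype.val h
    by_contra hne
    have h2 : (m : ℝ) - n ≠ 0 := sub_ne_zero.2 (by exact_mod_cast Ne.symm hne)
    refine irrational_sqrt_two ⟨(q j - q i) * ((n + 1) * (m + 1)) / (m - n), ?_⟩
    push_cast
    field_simp at h1 ⊢
    linarith
  let U : ℕ → Set (Cp X) := fun n => {f | ∀ i ∈ Iic n, 1 / 2 < f.1 (p i n)}
  have hU : ∀ n, IsOpen (U n) := fun n => by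
    simp only [U, ofPred_forall]
    exact (finite_Iic n).isOpen_biInter fun i _ => isOpen_lt continuous_const
      ((continuous_apply _).comp continuous_subtype_val)
  obtain ⟨B, B1, B2, -, B3⟩ := hk ⟨0, continuous_zero⟩ (⋃ n, U n) (isOpen_iUnion hU) ⟨by
    refine mem_closure_iff.2 fun W hW h0 => ?_
    obtain ⟨W', u1, rfl⟩ := isOpen_induced_iff.1 hW
    obtain ⟨I, u, u2, u3⟩ := isOpen_pi_iff.1 u1 _ h0
    have h1 : {n | ∃ i, p i n ∈ I}.Finite := by
      refine (I.finite_toSet.biUnion (t := fun x => {n | ∃ i, p i n = x}) fun x _ =>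
        Set.Subsingleton.finite ?_).subset fun n ⟨i, hi⟩ => mem_biUnion hi ⟨i, rfl⟩
      rintro n ⟨i, rfl⟩ m ⟨j, h⟩
      exact (hp _ _ _ _ h).symm
    obtain ⟨n, hn⟩ := h1.exists_notMem
    obtain ⟨φ, p0, p1, -⟩ := exists_continuous_zero_one_of_isClosed I.finite_toSet.isClosed
      ((finite_Iic n).image fun i => p i n).isClosed (disjoint_left.2 (by
        rintro _ h ⟨i, -, rfl⟩
        exact hn ⟨i, h⟩))
    refine ⟨⟨φ, φ.continuous⟩, u3 fun x hx => show φ x ∈ u x from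
      (show φ x = 0 from p0 hx).symm ▸ (u2 x hx).2,
      mem_iUnion.2 ⟨n, fun i hi => ?_⟩⟩
    have : φ (p i n) = 1 := p1 ⟨i, hi, rfl⟩
    simp only [this]
    norm_num, fun h => by
    obtain ⟨n, hn⟩ := mem_iUnion.1 h
    have := hn 0 (Nat.zero_le n)
    norm_num at this⟩
  have h1 : ∀ x : X, {h ∈ B | 1 / 2 < h.1 x}.Finite := fun x =>
    (B3 {h | h.1 x < 1 / 2} ((isOpen_lt ((continuous_apply x).comp continuous_subtype_val)
      continuous_const).mem_nhds (by norm_num))).subset fun h hh =>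
        ⟨hh.1, not_lt.2 (le_of_lt hh.2)⟩
  have h2 : ∀ h : Cp X, ∃ V : Set ℝ, IsOpen V ∧ Subtype.val ⁻¹' V = {x : X | 1 / 2 < h.1 x} :=
    fun h => isOpen_induced_iff.1 (isOpen_lt continuous_const h.2)
  choose V V1 V2 using h2
  have hB : B.Countable := Cardinal.le_aleph0_iff_set_countable.1 B2.le
  have hI : B.Infinite := infinite_coe_iff.1 (Cardinal.infinite_iff.2 B2.ge)
  have h3 : ∀ S ∈ {S : Set (Cp X) | S.Finite ∧ S ⊆ B}, ⋃ h ∈ B \ S, V h ∈ residual ℝ := by
    intro S hS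
    refine residual_of_dense_open (isOpen_biUnion fun h _ => V1 h)
      (dense_iff_inter_open.2 fun W hW ⟨w, hw⟩ => ?_)
    obtain ⟨a, b, ⟨w1, w2⟩, w3⟩ := mem_nhds_iff_exists_Ioo_subset.1 (hW.mem_nhds hw)
    obtain ⟨r, r1, r2⟩ := exists_rat_btwn (w1.trans w2)
    obtain ⟨i, rfl⟩ := hs r
    have k1 : Tendsto (fun n : ℕ => (q i : ℝ) + √2 / (n + 1)) atTop (𝓝 (q i)) := by
      simpa [div_eq_mul_inv] using (tendsto_one_div_add_atTop_nhds_zero_nat.const_mul √2).const_add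
        (q i : ℝ)
    obtain ⟨N, hN⟩ := eventually_atTop.1 ((k1.eventually (Ioo_mem_nhds r1 r2)).and
      (eventually_ge_atTop i))
    obtain ⟨h, k2, k3⟩ := hI.exists_notMem_finite
      (hS.1.union ((finite_Iio N).biUnion fun n _ => h1 (p 0 n)))
    obtain ⟨n, hn⟩ := mem_iUnion.1 (B1 k2)
    have k4 : N ≤ n := not_lt.1 fun h' => k3 (.inr (mem_biUnion h' ⟨k2, hn 0 (Nat.zero_le n)⟩))
    exact ⟨_, w3 (hN n k4).1, mem_biUnion ⟨k2, fun h' => k3 (.inl h')⟩
      ((V2 h).ge (hn i (hN n k4).2))⟩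
  refine hX (mem_of_superset ((countable_bInter_mem (countable_ofPred_finite_subset hB)).2 h3)
    fun x hx hxX => ?_)
  obtain ⟨h, k1, k2⟩ := mem_iUnion₂.1 (mem_iInter₂.1 hx _ ⟨h1 ⟨x, hxX⟩, sep_subset _ _⟩)
  exact k1.2 ⟨k1.1, (V2 h).le (show (⟨x, hxX⟩ : X) ∈ Subtype.val ⁻¹' V h from k2)⟩

/-- The least size of a set of reals `X` with `C_p(X)` not κ-Fréchet is the least size of a
non-meager set of reals. -/
theorem result :
    IsLeast {c | ∃ X : Set ℝ, ¬ KappaFrechet (Cp X) ∧ Cardinal.mk X = c} nonM := by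
  refine ⟨?_, fun c ⟨X, h1, h2⟩ => h2 ▸ not_lt.1 fun h => h1 (lower X h)⟩
  obtain ⟨S, h1, h2⟩ := nonM_mem
  have h3 : ¬ IsMeagre (S ∪ range fun p : ℚ × ℕ => (p.1 : ℝ) + √2 / (p.2 + 1)) :=
    fun h => h1 (h.mono subset_union_left)
  refine ⟨_, upper _ h3 fun q n => .inr ⟨(q, n), rfl⟩, le_antisymm ?_ (csInf_le' ⟨_, h3, rfl⟩)⟩
  refine (Cardinal.mk_union_le _ _).trans ?_
  rw [h2]
  exact (Cardinal.add_eq_left nonM_ge ((Cardinal.le_aleph0_iff_set_countable.2
    (countable_range _)).trans nonM_ge)).le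

end Pool.Agent.Results.MP_3edc48_gt.NonM
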